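import Pool.Agent.helper73.BRZ.Spec

/-!
# Project BRZ, row CTY
-/

set_option autoImplicit false

namespace Pool.Agent.BRZ

open Matrix Module Pool.Agent.PR Pool.Agent.SHL
open scoped ENNReal

section
variable {d : ℕ} {D : Type} [DivisionRing D] [Algebra ℚ D]

theorem CTY_mul_mem (S : SO d D) {x y : D} (hx : x ∈ S.ord) (hy : y ∈ S.ord) :
    x * y ∈ S.ord := by
  refine AddSubgroup.closure_induction (p := fun x _ => x * y ∈ S.ord) ?_ ?_ ?_ ?_ hx
  · rintro _ ⟨i, rfl⟩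
    refine AddSubgroup.closure_induction (p := fun y _ => S.b i * y ∈ S.ord) ?_ ?_ ?_ ?_ hy
    · rintro _ ⟨j, rfl⟩
      obtain ⟨c, hc⟩ := S.mul i j
      rw [hc]
      exact AddSubgroup.sum_mem _ fun l _ =>
        AddSubgroup.zsmul_mem _ (AddSubgroup.subset_closure (Set.mem_range_self l)) _
    · rw [mul_zero]
      exact AddSubgroup.zero_mem _
    · intro u v _ _ h1 h2
      rw [mul_add]
      exact AddSubgroup.add_mem _ h1 h2
    · intro u _ h1
      rw [mul_neg]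
      exact AddSubgroup.neg_mem _ h1
  · rw [zero_mul]
    exact AddSubgroup.zero_mem _
  · intro u v _ _ h1 h2
    rw [add_mul]
    exact AddSubgroup.add_mem _ h1 h2
  · intro u _ h1
    rw [neg_mul]
    exact AddSubgroup.neg_mem _ h1

theorem CTY_cancel {m : ℕ} (hm : 0 < m) {x y : D} (h : m • x = m • y) : x = y := by
  have : CharZero D := algebraRat.charZero D
  rw [nsmul_eq_mul, nsmul_eq_mul] at h
  exact mul_left_cancel₀ (Nat.cast_ne_zero.mpr hm.ne') h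

theorem CTY_div {m : ℕ} (hm : 0 < m) (x : D) : ∃ y : D, m • y = x := by
  have : CharZero D := algebraRat.charZero D
  refine ⟨((m : D))⁻¹ * x, ?_⟩
  rw [nsmul_eq_mul, mul_inv_cancel_left₀ (Nat.cast_ne_zero.mpr hm.ne')]

/-- the hypotheses on the reduction map -/
structure CTY_red (S : SO d D) (m : ℕ) (π : S.ord →+ Matrix (Fin d) (Fin d) (ZMod m)) : Prop where
  sur : Function.Surjective π
  mul : ∀ x y z : S.ord, (z : D) = x * y → π z = π x * π y
  ker : ∀ x : S.ord, π x = 0 ↔ ∃ y : S.ord, x = m • y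

/-- `m⁻¹ π⁻¹(J)` -/
def CTY_Y (S : SO d D) (m : ℕ) (π : S.ord →+ Matrix (Fin d) (Fin d) (ZMod m))
    (J : AddSubgroup (Matrix (Fin d) (Fin d) (ZMod m))) : AddSubgroup D where
  carrier := {y | ∃ x : S.ord, π x ∈ J ∧ (x : D) = m • y}
  zero_mem' := ⟨0, by rw [map_zero]; exact J.zero_mem, by simp⟩
  add_mem' := by
    rintro a b ⟨x, hx, hx'⟩ ⟨y, hy, hy'⟩
    refine ⟨x + y, by rw [map_add]; exact J.add_mem hx hy, ?_⟩
    rw [AddSubgroup.coe_add, hx', hy', smul_add]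
  neg_mem' := by
    rintro a ⟨x, hx, hx'⟩
    refine ⟨-x, by rw [map_neg]; exact J.neg_mem hx, ?_⟩
    rw [AddSubgroup.coe_neg, hx', smul_neg]

/-- `(m Y) ∩ O` -/
def CTY_K (S : SO d D) (m : ℕ) (Y : AddSubgroup D) : AddSubgroup S.ord where
  carrier := {x | ∃ y ∈ Y, (x : D) = m • y}
  zero_mem' := ⟨0, Y.zero_mem, by simp⟩
  add_mem' := by
    rintro a b ⟨x, hx, hx'⟩ ⟨y, hy, hy'⟩
    refine ⟨x + y, Y.add_mem hx hy, ?_⟩
    rw [AddSubgroup.coe_add, hx', hy', smul_add]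
  neg_mem' := by
    rintro a ⟨x, hx, hx'⟩
    refine ⟨-x, Y.neg_mem hx, ?_⟩
    rw [AddSubgroup.coe_neg, hx', smul_neg]

theorem CTY_mem_Y {S : SO d D} {m : ℕ} {π : S.ord →+ Matrix (Fin d) (Fin d) (ZMod m)}
    {J : AddSubgroup (Matrix (Fin d) (Fin d) (ZMod m))} {y : D} :
    y ∈ CTY_Y S m π J ↔ ∃ x : S.ord, π x ∈ J ∧ (x : D) = m • y := Iff.rfl

theorem CTY_mem_K {S : SO d D} {m : ℕ} {Y : AddSubgroup D} {x : S.ord} :
    x ∈ CTY_K S m Y ↔ ∃ y ∈ Y, (x : D) = m • y := Iff.rfl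

theorem CTY_le {S : SO d D} {m : ℕ} {π : S.ord →+ Matrix (Fin d) (Fin d) (ZMod m)}
    (hr : CTY_red S m π) (J : AddSubgroup (Matrix (Fin d) (Fin d) (ZMod m))) :
    S.ord ≤ CTY_Y S m π J := by
  intro y hy
  refine ⟨m • (⟨y, hy⟩ : S.ord), ?_, by simp⟩
  rw [(hr.ker _).mpr ⟨⟨y, hy⟩, rfl⟩]
  exact J.zero_mem

theorem CTY_left {S : SO d D} {m : ℕ} {π : S.ord →+ Matrix (Fin d) (Fin d) (ZMod m)}
    (hr : CTY_red S m π) (J : AddSubgroup (Matrix (Fin d) (Fin d) (ZMod m)))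
    (hJ : ∀ a : Matrix (Fin d) (Fin d) (ZMod m), ∀ x ∈ J, a * x ∈ J) :
    ∀ a ∈ S.ord, ∀ y ∈ CTY_Y S m π J, a * y ∈ CTY_Y S m π J := by
  rintro a ha y ⟨x, hx, hx'⟩
  refine ⟨⟨a * x, CTY_mul_mem S ha x.2⟩, ?_, ?_⟩
  · rw [hr.mul ⟨a, ha⟩ x _ rfl]
    exact hJ _ _ hx
  · show a * (x : D) = m • (a * y)
    rw [hx', mul_smul_comm]

theorem CTY_index {S : SO d D} {m : ℕ} (hm : 0 < m)
    {π : S.ord →+ Matrix (Fin d) (Fin d) (ZMod m)}
    (hr : CTY_red S m π) (J : AddSubgroup (Matrix (Fin d) (Fin d) (ZMod m))) :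
    S.ord.relIndex (CTY_Y S m π J) = Nat.card J := by
  have hmem : ∀ y : CTY_Y S m π J, m • (y : D) ∈ S.ord := by
    rintro ⟨y, x, hx, hx'⟩
    show m • y ∈ S.ord
    rw [← hx']
    exact x.2
  let f : CTY_Y S m π J →+ Matrix (Fin d) (Fin d) (ZMod m) :=
    { toFun := fun y => π ⟨m • (y : D), hmem y⟩
      map_zero' := by
        rw [← map_zero π]
        congr 1
        ext
        simp
      map_add' := by
        intro a b
        rw [← map_add π]
        congr 1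
        ext
        simp [smul_add] }
  have hf : ∀ y : CTY_Y S m π J, f y = π ⟨m • (y : D), hmem y⟩ := fun _ => rfl
  have hker : f.ker = S.ord.addSubgroupOf (CTY_Y S m π J) := by
    ext y
    rw [AddMonoidHom.mem_ker, AddSubgroup.mem_addSubgroupOf, hf, hr.ker]
    constructor
    · rintro ⟨z, hz⟩
      have h1 : m • (y : D) = m • (z : D) := by
        have := congrArg (fun u : S.ord => (u : D)) hz
        simpa using this
      rw [CTY_cancel hm h1]
      exact z.2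
    · intro hy
      exact ⟨⟨y, hy⟩, by ext; simp⟩
  have hrange : (f.range : Set (Matrix (Fin d) (Fin d) (ZMod m))) = J := by
    ext j
    constructor
    · rintro ⟨⟨y, x, hx, hx'⟩, rfl⟩
      rw [hf]
      have : (⟨m • y, hmem ⟨y, x, hx, hx'⟩⟩ : S.ord) = x := by
        ext
        exact hx'.symm
      show π ⟨m • y, _⟩ ∈ J
      rw [this]
      exact hx
    · intro hj
      obtain ⟨x, rfl⟩ := hr.sur j
      obtain ⟨y, hy⟩ := CTY_div hm (x : D)
      refine ⟨⟨y, x, hj, hy.symm⟩, ?_⟩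
      rw [hf]
      congr 1
      ext
      exact hy
  have h1 : f.range = J := SetLike.coe_injective hrange
  show (S.ord.addSubgroupOf (CTY_Y S m π J)).index = Nat.card J
  rw [← hker, AddSubgroup.index_ker, h1]

theorem CTY_YJ {S : SO d D} {m : ℕ} (hm : 0 < m)
    {π : S.ord →+ Matrix (Fin d) (Fin d) (ZMod m)}
    (hr : CTY_red S m π) (Y : AddSubgroup D) (hO : S.ord ≤ Y) (hY : ∀ y ∈ Y, m • y ∈ S.ord) :
    CTY_Y S m π ((CTY_K S m Y).map π) = Y := by
  ext y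
  rw [CTY_mem_Y]
  constructor
  · rintro ⟨x, hx, hx'⟩
    obtain ⟨x', hx2, hx3⟩ := AddSubgroup.mem_map.mp hx
    obtain ⟨y', hy', hy2⟩ := CTY_mem_K.mp hx2
    have h1 : π (x - x') = 0 := by
      rw [map_sub, hx3, sub_self]
    obtain ⟨z, hz⟩ := (hr.ker _).mp h1
    have h2 : (x : D) - x' = m • (z : D) := by
      have := congrArg (fun u : S.ord => (u : D)) hz
      simpa using this
    have h3 : m • y = m • (y' + z) := by
      rw [← hx', smul_add, ← hy2, ← h2]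
      abel
    rw [CTY_cancel hm h3]
    exact Y.add_mem hy' (hO z.2)
  · intro hy
    refine ⟨⟨m • y, hY y hy⟩, ?_, rfl⟩
    exact AddSubgroup.mem_map.mpr ⟨⟨m • y, hY y hy⟩, ⟨y, hy, rfl⟩, rfl⟩

theorem CTY_JY {S : SO d D} {m : ℕ} (hm : 0 < m)
    {π : S.ord →+ Matrix (Fin d) (Fin d) (ZMod m)}
    (hr : CTY_red S m π) (J : AddSubgroup (Matrix (Fin d) (Fin d) (ZMod m))) :
    (CTY_K S m (CTY_Y S m π J)).map π = J := by
  ext j
  rw [AddSubgroup.mem_map]
  constructor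
  · rintro ⟨x, ⟨y, ⟨x', hx', hx2⟩, hy2⟩, rfl⟩
    have : x = x' := by
      ext
      rw [hy2, hx2]
    rw [this]
    exact hx'
  · intro hj
    obtain ⟨x, rfl⟩ := hr.sur j
    obtain ⟨y, hy⟩ := CTY_div hm (x : D)
    exact ⟨x, ⟨y, ⟨x, hj, hy.symm⟩, hy.symm⟩, rfl⟩

theorem CTY_Jleft {S : SO d D} {m : ℕ}
    {π : S.ord →+ Matrix (Fin d) (Fin d) (ZMod m)}
    (hr : CTY_red S m π) (Y : AddSubgroup D) (hl : ∀ a ∈ S.ord, ∀ y ∈ Y, a * y ∈ Y) :
    ∀ a : Matrix (Fin d) (Fin d) (ZMod m), ∀ x ∈ (CTY_K S m Y).map π,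
      a * x ∈ (CTY_K S m Y).map π := by
  intro a x hx
  obtain ⟨a', rfl⟩ := hr.sur a
  obtain ⟨x', ⟨y, hy, hy2⟩, rfl⟩ := AddSubgroup.mem_map.mp hx
  rw [← hr.mul a' x' ⟨(a' : D) * x', CTY_mul_mem S a'.2 x'.2⟩ rfl]
  refine AddSubgroup.mem_map.mpr ⟨_, ⟨(a' : D) * y, hl _ a'.2 _ hy, ?_⟩, rfl⟩
  show (a' : D) * (x' : D) = m • ((a' : D) * y)
  rw [hy2, mul_smul_comm]

theorem CTY_smul_mem {S : SO d D} {m : ℕ} (Y : S.LY) (h : S.ix Y = m) :
    ∀ y ∈ Y.1, m • y ∈ S.ord := by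
  intro y hy
  have h1 := AddSubgroup.nsmul_index_mem (S.ord.addSubgroupOf Y.1) ⟨y, hy⟩
  have h2 : (S.ord.addSubgroupOf Y.1).index = m := h
  rw [h2, AddSubgroup.mem_addSubgroupOf] at h1
  simpa using h1

/-- The lattices of index `m` and the left ideals of order `m`. -/
noncomputable def CTY_equiv {S : SO d D} {m : ℕ} (hm : 0 < m)
    {π : S.ord →+ Matrix (Fin d) (Fin d) (ZMod m)} (hr : CTY_red S m π) :
    {Y : S.LY // S.ix Y = m} ≃
    {J : {J : AddSubgroup (Matrix (Fin d) (Fin d) (ZMod m)) //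
      ∀ a : Matrix (Fin d) (Fin d) (ZMod m), ∀ x ∈ J, a * x ∈ J} // Nat.card J.1 = m} where
  toFun Y := ⟨⟨(CTY_K S m Y.1.1).map π, CTY_Jleft hr Y.1.1 Y.1.2.2.1⟩, by
    rw [← CTY_index hm hr, CTY_YJ hm hr Y.1.1 Y.1.2.1 (CTY_smul_mem Y.1 Y.2)]
    exact Y.2⟩
  invFun J := ⟨⟨CTY_Y S m π J.1.1, CTY_le hr _, CTY_left hr _ J.1.2, by
    rw [CTY_index hm hr, J.2]
    exact hm.ne'⟩, by
    show S.ord.relIndex (CTY_Y S m π J.1.1) = m
    rw [CTY_index hm hr, J.2]⟩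
  left_inv := by
    rintro ⟨⟨Y, hY⟩, hY2⟩
    apply Subtype.ext
    apply Subtype.ext
    exact CTY_YJ hm hr Y hY.1 (CTY_smul_mem ⟨Y, hY⟩ hY2)
  right_inv := by
    rintro ⟨⟨J, hJ⟩, hJ2⟩
    apply Subtype.ext
    apply Subtype.ext
    exact CTY_JY hm hr J

end

theorem CTY_cc0 {d : ℕ} (hd : 0 < d) : cc d 0 = 0 := by
  obtain ⟨d, rfl⟩ := Nat.exists_eq_succ_of_ne_zero hd.ne'
  simp [cc]

theorem CTY (hCNT : CNT_stmt) (hMOR : MOR_stmt) (hLM : LM_stmt) : CTY_stmt := by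
  intro d D _ _ _ hd hcen S hq F
  have hinj : Function.Injective (fun w : ℕ => w ^ d) := fun a b h =>
    Nat.pow_left_injective hd.ne' h
  -- the number of lattices of index `m`
  have key : ∀ m : ℕ, 0 < m → Nat.card {Y : S.LY // S.ix Y = m} =
      Nat.card {W : AddSubgroup (Fin d → ZMod m) // Nat.card W ^ d = m} ∧
      Finite {Y : S.LY // S.ix Y = m} := by
    intro m hm
    obtain ⟨π, h1, h2, h3⟩ := hLM d D hd hcen S hq m hm
    obtain ⟨e, he⟩ := hMOR d m hd hm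
    have : NeZero m := ⟨hm.ne'⟩
    let E := (CTY_equiv hm (CTY_red.mk h1 h2 h3)).trans
      (Equiv.subtypeEquiv e (q := fun W : AddSubgroup (Fin d → ZMod m) => Nat.card W ^ d = m)
        (fun J => by rw [he J]))
    refine ⟨Nat.card_congr E, ?_⟩
    have : Finite {W : AddSubgroup (Fin d → ZMod m) // Nat.card W ^ d = m} := by
      have : Finite (AddSubgroup (Fin d → ZMod m)) :=
        Finite.of_injective (fun W : AddSubgroup (Fin d → ZMod m) => (W : Set (Fin d → ZMod m)))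
          SetLike.coe_injective
      infer_instance
    exact Finite.of_equiv _ E.symm
  have hpow : ∀ w : ℕ, Nat.card {Y : S.LY // S.ix Y = w ^ d} = cc d w := by
    intro w
    rcases Nat.eq_zero_or_pos w with rfl | hw
    · rw [zero_pow hd.ne', CTY_cc0 hd]
      have : IsEmpty {Y : S.LY // S.ix Y = 0} := ⟨fun Y => Y.1.2.2.2 Y.2⟩
      exact Nat.card_of_isEmpty
    · rw [(key (w ^ d) (pow_pos hw d)).1, ← hCNT d w (w ^ d) (pow_pos hw d) (dvd_pow_self w hd.ne')]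
      refine Nat.card_congr (Equiv.subtypeEquivRight fun W => ?_)
      constructor
      · intro h
        exact hinj h
      · intro h
        rw [h]
  have hzero : ∀ m : ℕ, m ∉ Set.range (fun w : ℕ => w ^ d) →
      IsEmpty {Y : S.LY // S.ix Y = m} := by
    intro m hm
    rcases Nat.eq_zero_or_pos m with rfl | hm0
    · exact ⟨fun Y => Y.1.2.2.2 Y.2⟩
    · obtain ⟨h1, h2⟩ := key m hm0
      have h3 : Nat.card {W : AddSubgroup (Fin d → ZMod m) // Nat.card W ^ d = m} = 0 := by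
        have : IsEmpty {W : AddSubgroup (Fin d → ZMod m) // Nat.card W ^ d = m} :=
          ⟨fun W => hm ⟨Nat.card W.1, W.2⟩⟩
        exact Nat.card_of_isEmpty
      rw [h3] at h1
      exact (Finite.card_eq_zero_iff).mp h1
  have hfin : ∀ m : ℕ, Finite {Y : S.LY // S.ix Y = m} := by
    intro m
    rcases Nat.eq_zero_or_pos m with rfl | hm0
    · have : IsEmpty {Y : S.LY // S.ix Y = 0} := ⟨fun Y => Y.1.2.2.2 Y.2⟩
      infer_instance
    · exact (key m hm0).2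
  have h1 : ∑' Y : S.LY, F (S.ix Y) =
      ∑' m : ℕ, (Nat.card {Y : S.LY // S.ix Y = m} : ℝ≥0∞) * F m := by
    rw [← (Equiv.sigmaFiberEquiv (fun Y : S.LY => S.ix Y)).tsum_eq (fun Y => F (S.ix Y)),
      ENNReal.tsum_sigma']
    refine tsum_congr fun m => ?_
    have h2 : ∀ Y : {Y : S.LY // S.ix Y = m},
        F (S.ix ((Equiv.sigmaFiberEquiv (fun Y : S.LY => S.ix Y)) ⟨m, Y⟩)) = F m := by
      intro Y
      have : S.ix ((Equiv.sigmaFiberEquiv (fun Y : S.LY => S.ix Y)) ⟨m, Y⟩) = m := Y.2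
      rw [this]
    have := hfin m
    simp only [h2]
    rw [ENNReal.tsum_const]
    congr 1
    rw [ENat.card_eq_coe_natCard]
    rfl
  rw [h1]
  have h3 := hinj.tsum_eq
    (f := fun m : ℕ => (Nat.card {Y : S.LY // S.ix Y = m} : ℝ≥0∞) * F m) (by
      intro m hm
      by_contra hc
      apply hm
      have := hzero m hc
      show (Nat.card {Y : S.LY // S.ix Y = m} : ℝ≥0∞) * F m = 0
      rw [Nat.card_of_isEmpty, Nat.cast_zero, zero_mul])
  rw [← h3]
  refine tsum_congr fun w => ?_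
  rw [hpow w]

end Pool.Agent.BRZ
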